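import Pool.Agent.CB90.Map
import Pool.Agent.BF80.CaseI

/-!
# The points of the base are algebraic over the parameter
-/

set_option maxSynthPendingDepth 10

namespace CB90

open FT80 BF80 LD90

namespace BM

theorem ev_congr {R : Type*} [CommRing R] (t : R) {s s' : ℕ → R} {b : PL}
    (h : ∀ m ∈ b, ∀ i ∈ m.2, s i = s' i) : ev t s b = ev t s' b := by
  unfold ev
  congr 1
  apply List.map_congr_left
  intro m hm
  have h1 : m.2.map s = m.2.map s' := List.map_congr_left fun i hi => h m hm i hi
  rw [h1]

end BM

/-- CB-2 (BaseMem.lean): the points of the base are algebraic over the parameter -/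
theorem base_mem {R L : Type*} [CommRing R] [IsDomain R] [Field L] (τ : R →+* L) (t : L)
    (ht : t ∈ algField τ) (B : List PL) (s : ℕ → L) (hs : s 0 ∈ algField τ)
    (hB : ∀ i b, B[i]? = some b → Vars (i + 1) b) (h : Base t B s) :
    ∀ i ≤ B.length, s i ∈ algField τ := by
  classical
  intro i
  induction i using Nat.strong_induction_on with
  | _ i ih =>
    intro hi
    rcases i with _ | i
    · exact hs
    · obtain ⟨b, hb⟩ : ∃ b, B[i]? = some b :=
        ⟨B[i]'(by omega), List.getElem?_eq_getElem (by omega)⟩
      obtain ⟨h0, z0, hz0⟩ := h i b hb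
      have hv := hB i b hb
      let E := algField τ
      let S : ℕ → Polynomial E := fun k => if k = i + 1 then Polynomial.X else
        if hk : s k ∈ E then Polynomial.C ⟨s k, hk⟩ else 0
      let P : Polynomial E := ev (Polynomial.C (⟨t, ht⟩ : E)) S b
      have key : ∀ z : L, ev t (Function.update s (i + 1) z) b = P.eval₂ E.subtype z := by
        intro z
        have h1 := ev_map' (Polynomial.eval₂RingHom E.subtype z) (Polynomial.C (⟨t, ht⟩ : E)) S b
        rw [Polynomial.coe_eval₂RingHom, Polynomial.eval₂_C] at h1
        have h3 : P.eval₂ E.subtype z =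
            ev t (fun k => (S k).eval₂ E.subtype z) b := h1.symm
        rw [h3]
        apply BM.ev_congr
        intro m hm k hk
        have hk' : k ≤ i + 1 := hv m hm k hk
        by_cases hki : k = i + 1
        · subst hki
          have h2 : S (i + 1) = Polynomial.X := if_pos rfl
          rw [Function.update_self, h2, Polynomial.eval₂_X]
        · have hkE : s k ∈ E := ih k (by omega) (by omega)
          have h2 : S k = Polynomial.C ⟨s k, hkE⟩ := by
            simp only [S]
            rw [if_neg hki, dif_pos hkE]
          rw [Function.update_of_ne hki, h2, Polynomial.eval₂_C]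
          rfl
      have hP : P ≠ 0 := by
        intro hP
        apply hz0
        rw [key, hP, Polynomial.eval₂_zero]
      refine BF80.CI.alg1_of_alg hP ?_
      have h4 := key (s (i + 1))
      rw [Function.update_eq_self, h0] at h4
      exact h4.symm

/-- CB-2 (BaseMem.lean): witnesses in the subfield -/
theorem exists_z {L : Type*} [Field L] (E : Subfield L) [Infinite E] (t : L) (ht : t ∈ E)
    (s : ℕ → L) (hs : ∀ i, s i ∈ E) (i : ℕ) (b : PL)
    (h : ∃ z, ev t (Function.update s i z) b ≠ 0) :
    ∃ z ∈ E, ev t (Function.update s i z) b ≠ 0 := by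
  let P : Polynomial E := ev (Polynomial.C (⟨t, ht⟩ : E))
    (Function.update (fun j => Polynomial.C (⟨s j, hs j⟩ : E)) i Polynomial.X) b
  have key : ∀ z : L, ev t (Function.update s i z) b = P.eval₂ E.subtype z := by
    intro z
    have h1 := ev_map' (Polynomial.eval₂RingHom E.subtype z) (Polynomial.C (⟨t, ht⟩ : E))
      (Function.update (fun j => Polynomial.C (⟨s j, hs j⟩ : E)) i Polynomial.X) b
    rw [update_map] at h1
    simp only [Polynomial.coe_eval₂RingHom, Polynomial.eval₂_C, Polynomial.eval₂_X] at h1
    exact h1
  have hP : P ≠ 0 := by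
    intro hP
    obtain ⟨z, hz⟩ := h
    apply hz
    rw [key, hP, Polynomial.eval₂_zero]
  have h2 : ∃ e : E, P.eval e ≠ 0 := by
    by_contra hcon
    apply hP
    apply Polynomial.funext
    intro e
    rw [Polynomial.eval_zero]
    by_contra he
    exact hcon ⟨e, he⟩
  obtain ⟨e, he⟩ := h2
  refine ⟨e, e.2, ?_⟩
  rw [key]
  intro h3
  apply he
  apply E.subtype.injective
  rw [map_zero, ← h3]
  exact (Polynomial.eval₂_at_apply E.subtype e).symm

end CB90
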