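import Pool.Agent.CB90.Map

/-!
# Only finitely many base variables matter
-/

namespace CB90

open LD90

section trunc

variable {R : Type*} [CommRing R]

theorem ev_congr {n : ℕ} {c : PL} (hc : Vars n c) (t : R) {s s' : ℕ → R}
    (h : ∀ i ≤ n, s i = s' i) : ev t s c = ev t s' c := by
  rw [ev, ev]
  congr 1
  refine List.map_congr_left fun m hm => ?_
  congr 2
  exact List.map_congr_left fun i hi => h i (hc m hm i hi)

theorem qv_congr_s {n : ℕ} (t : R) {s s' : ℕ → R} (h : ∀ i ≤ n, s i = s' i) (x : ℕ → R)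
    (l : List (PL × List ℕ)) (hl : ∀ m ∈ l, Vars n m.1) : qv t s x l = qv t s' x l := by
  rw [qv, qv]
  congr 1
  refine List.map_congr_left fun m hm => ?_
  rw [ev_congr (hl m hm) t h]

theorem dv_congr_s {n : ℕ} (t : R) {s s' : ℕ → R} (h : ∀ i ≤ n, s i = s' i)
    (l : List (PL × ℕ)) : ∀ (_ : ∀ m ∈ l, Vars n m.1) (y : ℕ → R), dv t s l y = dv t s' l y := by
  induction l with
  | nil => intro _ y; simp [dv]
  | cons a l ih =>
    intro hl y
    obtain ⟨a, d⟩ := a
    rw [dv, dv, ev_congr (hl _ (List.mem_cons_self)) t h,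
      ih fun m hm => hl m (List.mem_cons_of_mem _ hm)]

/-- CB-3 (Trunc.lean): the other base variables are irrelevant -/
theorem trunc {p : ℕ} (t : R) (a : List PL × List Eqn × PL)
    (ha : Adm p a) (s : ℕ → R) (h : Base t a.1 s ∧ ev t s a.2.2 ≠ 0 ∧
      ∀ f ∈ a.2.1, ∃ x y : ℕ → R, Eqn.val t s x y f = 0) :
    let s' : ℕ → R := fun i => if i ≤ a.1.length then s i else 0
    Base t a.1 s' ∧ ev t s' a.2.2 ≠ 0 ∧ ∀ f ∈ a.2.1, ∃ x y : ℕ → R, Eqn.val t s' x y f = 0 := by
  intro s'
  have hs' : ∀ i ≤ a.1.length, s i = s' i := fun i hi => by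
    simp only [s', if_pos hi]
  obtain ⟨h1, h2, h3⟩ := h
  obtain ⟨a1, a2, a3⟩ := ha
  refine ⟨?_, ?_, ?_⟩
  · intro i b hb
    have hi : i + 1 ≤ a.1.length := by
      have := (List.getElem?_eq_some_iff.1 hb).1
      omega
    obtain ⟨h4, z, h5⟩ := h1 i b hb
    have h6 : ∀ j ≤ i + 1, s j = s' j := fun j hj => hs' j (hj.trans hi)
    refine ⟨?_, z, ?_⟩
    · rw [← ev_congr (a1 i b hb) t h6]
      exact h4
    · rw [← ev_congr (a1 i b hb) t (s := Function.update s (i + 1) z)]
      · exact h5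
      · intro j hj
        by_cases hji : j = i + 1
        · subst hji
          rw [Function.update_self, Function.update_self]
        · rw [Function.update_of_ne hji, Function.update_of_ne hji]
          exact h6 j hj
  · rw [← ev_congr a3 t hs']
    exact h2
  · intro f hf
    obtain ⟨x, y, hxy⟩ := h3 f hf
    refine ⟨x, y, ?_⟩
    rw [Eqn.val] at hxy ⊢
    rw [← qv_congr_s t hs' x f.1 fun m hm => ((a2 f hf).1 m hm).1,
      ← dv_congr_s t hs' f.2 fun m hm => ((a2 f hf).2 m hm).1]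
    exact hxy

end trunc

end CB90
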