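import Pool.Agent.CB90.Defs

/-!
# Solvability and ring homomorphisms
-/

namespace CB90

open LD90

section map

variable {R S : Type*} [CommRing R] [CommRing S]

theorem ev_map' (φ : R →+* S) (t : R) (s : ℕ → R) (c : PL) :
    ev (φ t) (fun i => φ (s i)) c = φ (ev t s c) := by
  rw [ev, ev, map_list_sum, List.map_map]
  congr 1
  refine List.map_congr_left fun m _ => ?_
  simp only [Function.comp_apply, map_mul, map_pow, map_list_prod, List.map_map]
  rfl

theorem qv_map (φ : R →+* S) (t : R) (s x : ℕ → R) (l : List (PL × List ℕ)) :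
    qv (φ t) (fun i => φ (s i)) (fun i => φ (x i)) l = φ (qv t s x l) := by
  rw [qv, qv, map_list_sum, List.map_map]
  congr 1
  refine List.map_congr_left fun m _ => ?_
  simp only [Function.comp_apply, map_mul, ev_map', map_list_prod, List.map_map]
  rfl

theorem dv_map (φ : R →+* S) (t : R) (s : ℕ → R) (l : List (PL × ℕ)) : ∀ y : ℕ → R,
    dv (φ t) (fun i => φ (s i)) l (fun i => φ (y i)) = φ (dv t s l y) := by
  induction l with
  | nil => intro y; simp [dv]
  | cons a l ih =>
    intro y
    obtain ⟨a, d⟩ := a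
    rw [dv, dv, map_add, map_mul, map_pow, ev_map']
    congr 1
    exact ih fun i => y (i + 1)

theorem val_map (φ : R →+* S) (t : R) (s x y : ℕ → R) (f : Eqn) :
    Eqn.val (φ t) (fun i => φ (s i)) (fun i => φ (x i)) (fun i => φ (y i)) f =
      φ (Eqn.val t s x y f) := by
  rw [Eqn.val, Eqn.val, map_add, qv_map, dv_map]

theorem update_map (φ : R →+* S) (s : ℕ → R) (i : ℕ) (z : R) :
    (fun j => φ (Function.update s i z j)) = Function.update (fun j => φ (s j)) i (φ z) := by
  funext j
  by_cases h : j = i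
  · subst h
    rw [Function.update_self, Function.update_self]
  · rw [Function.update_of_ne h, Function.update_of_ne h]

theorem Base.map (φ : R →+* S) (hφ : Function.Injective φ) {t : R} {B : List PL} {s : ℕ → R}
    (h : Base t B s) : Base (φ t) B fun i => φ (s i) := by
  intro i b hb
  obtain ⟨h1, z, h2⟩ := h i b hb
  refine ⟨by rw [ev_map', h1, map_zero], φ z, ?_⟩
  rw [← update_map, ev_map']
  exact fun h => h2 ((map_eq_zero_iff φ hφ).1 h)

theorem PSol.map (φ : R →+* S) (hφ : Function.Injective φ) {t : R}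
    {a : List PL × List Eqn × PL} (h : PSol t a) : PSol (φ t) a := by
  obtain ⟨s, h0, h1, h2⟩ := h
  refine ⟨fun i => φ (s i), h0.map φ hφ, ?_, fun f hf => ?_⟩
  · rw [ev_map']
    exact fun h => h1 ((map_eq_zero_iff φ hφ).1 h)
  · obtain ⟨x, y, hxy⟩ := h2 f hf
    exact ⟨fun i => φ (x i), fun i => φ (y i), by rw [val_map, hxy, map_zero]⟩

end map

end CB90
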