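import Pool.Agent.OP90.Core
import Pool.Agent.CB90.Map

/-!
# Solvable equations are solvable in every relatively closed subfield
-/

set_option maxSynthPendingDepth 10

namespace CB90

open FT80 BF80 LD90

section poly

open MvPolynomial

variable {E M : Type*} [Field E] [Field M]

/-- extension by zero -/
def ext {A : Type*} [Zero A] {N : ℕ} (x : Fin N → A) : ℕ → A := fun i =>
  if h : i < N then x ⟨i, h⟩ else 0

/-- bound for the variables -/
def bq (l : List (PL × List ℕ)) : ℕ := (l.map fun m => (m.2.map fun i => i + 1).sum).sum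

theorem lt_bq {l : List (PL × List ℕ)} {m : PL × List ℕ} (hm : m ∈ l) {i : ℕ} (hi : i ∈ m.2) :
    i < bq l := by
  have h1 : (m.2.map fun i => i + 1).sum ≤ bq l :=
    List.le_sum_of_mem (List.mem_map.2 ⟨m, hm, rfl⟩)
  have h2 : i + 1 ≤ (m.2.map fun i => i + 1).sum :=
    List.le_sum_of_mem (List.mem_map.2 ⟨i, hi, rfl⟩)
  omega

theorem qv_congr {R : Type*} [CommRing R] (t : R) (s : ℕ → R) {x x' : ℕ → R} {l : List (PL × List ℕ)}
    (h : ∀ m ∈ l, ∀ i ∈ m.2, x i = x' i) : qv t s x l = qv t s x' l := by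
  unfold qv
  congr 1
  apply List.map_congr_left
  intro m hm
  have e : m.2.map x = m.2.map x' := List.map_congr_left (h m hm)
  rw [e]

/-- the polynomial part as a polynomial -/
noncomputable def QP (N : ℕ) (t : E) (s : ℕ → E) (l : List (PL × List ℕ)) : MvPolynomial (Fin N) E :=
  (l.map fun m => C (ev t s m.1) * (m.2.map fun i => if h : i < N then
    (X ⟨i, h⟩ : MvPolynomial (Fin N) E) else 0).prod).sum

theorem eval₂_QP (j : E →+* M) (N : ℕ) (t : E) (s : ℕ → E) (l : List (PL × List ℕ)) (x : Fin N → M) :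
    eval₂ j x (QP N t s l) = qv (j t) (fun i => j (s i)) (ext x) l := by
  induction l with
  | nil => simp [QP, qv]
  | cons a l ih =>
    have e1 : QP N t s (a :: l) = C (ev t s a.1) * (a.2.map fun i => if h : i < N then
        (X ⟨i, h⟩ : MvPolynomial (Fin N) E) else 0).prod + QP N t s l := by
      rw [QP, List.map_cons, List.sum_cons]
      rfl
    have e2 : qv (j t) (fun i => j (s i)) (ext x) (a :: l) =
        ev (j t) (fun i => j (s i)) a.1 * (a.2.map (ext x)).prod +
        qv (j t) (fun i => j (s i)) (ext x) l := by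
      rw [qv, List.map_cons, List.sum_cons]
      rfl
    have e3 : eval₂ j x (a.2.map fun i => if h : i < N then
        (X ⟨i, h⟩ : MvPolynomial (Fin N) E) else 0).prod = (a.2.map (ext x)).prod := by
      rw [← coe_eval₂Hom, map_list_prod, List.map_map]
      congr 1
      refine List.map_congr_left fun i _ => ?_
      rw [Function.comp_apply, ext]
      split_ifs with h
      · simp
      · simp
    rw [e1, e2, eval₂_add, eval₂_mul, eval₂_C, e3, ev_map', ih]

theorem eval_QP (N : ℕ) (t : E) (s : ℕ → E) (l : List (PL × List ℕ)) (x : Fin N → E) :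
    eval x (QP N t s l) = qv t s (ext x) l := by
  have h := eval₂_QP (RingHom.id E) N t s l x
  rw [MvPolynomial.eval₂_id] at h
  exact h

theorem deg_QP (N : ℕ) (t : E) (s : ℕ → E) (l : List (PL × List ℕ)) (d : ℕ) (h : ∀ m ∈ l, m.2.length ≤ d) :
    (QP N t s l).totalDegree ≤ d := by
  induction l with
  | nil => simp [QP]
  | cons a l ih =>
    have e1 : QP N t s (a :: l) = C (ev t s a.1) * (a.2.map fun i => if h : i < N then
        (X ⟨i, h⟩ : MvPolynomial (Fin N) E) else 0).prod + QP N t s l := by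
      rw [QP, List.map_cons, List.sum_cons]
      rfl
    rw [e1]
    refine (totalDegree_add _ _).trans (max_le ?_ (ih fun m hm => h m (List.mem_cons_of_mem _ hm)))
    refine (totalDegree_mul _ _).trans ?_
    rw [totalDegree_C, zero_add]
    refine le_trans ?_ (h a List.mem_cons_self)
    have e4 : ∀ l : List ℕ, ((l.map fun i => if h : i < N then
        (X ⟨i, h⟩ : MvPolynomial (Fin N) E) else 0).prod).totalDegree ≤ l.length := by
      intro l
      induction l with
      | nil => simp
      | cons i l ih =>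
        rw [List.map_cons, List.prod_cons, List.length_cons]
        refine (totalDegree_mul _ _).trans ?_
        have h5 : (if h : i < N then (X ⟨i, h⟩ : MvPolynomial (Fin N) E) else 0).totalDegree ≤ 1 := by
          split_ifs with h
          · exact (isHomogeneous_X E _).totalDegree_le
          · simp
        omega
    exact e4 a.2

theorem dv_eq {R : Type*} [CommRing R] (t : R) (s : ℕ → R) (l : List (PL × ℕ)) : ∀ y : ℕ → R,
    dv t s l y = ∑ i : Fin l.length, ev t s (l.get i).1 * y i ^ (l.get i).2 := by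
  induction l with
  | nil => intro y; simp [dv]
  | cons a l ih =>
    intro y
    obtain ⟨a, d⟩ := a
    rw [dv, ih]
    simp only [List.length_cons]
    rw [Fin.sum_univ_succ]
    rfl

end poly

section up

variable {p : ℕ} [hp : Fact p.Prime] {M : Type} [Field M] {σ : P1 p →+* M}

/-- solvable equations are solvable in every relatively closed subfield -/
theorem up_of (hM : Mdl p σ) (j : k0 p →+* M) (hj : ∀ f, j (sig0 p f) = σ f)
    (hCD : OP90.CD p) (hA : OP90.QNF)
    (E : Subfield M) (hE1 : ∀ a, j a ∈ E) (hE2 : ∀ (z : M) (n : ℕ), n ≠ 0 → z ^ n ∈ E → z ∈ E)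
    (s : ℕ → M) (hs : ∀ i, s i ∈ E) (f : Eqn)
    (hf : (∀ m ∈ f.1, m.2.length ≤ 2 ∧ (p = 2 → m.2.length ≤ 1)) ∧ ∀ m ∈ f.2, ¬ p ∣ m.2)
    (h : ∃ x y : ℕ → M, Eqn.val (σ Polynomial.X) s x y f = 0) :
    ∃ x y : ℕ → M, (∀ i, x i ∈ E) ∧ (∀ i, y i ∈ E) ∧ Eqn.val (σ Polynomial.X) s x y f = 0 := by
  classical
  have htE : σ Polynomial.X ∈ E := by rw [← hj]; exact hE1 _
  haveI : Infinite E := Infinite.of_injective (fun n : ℕ => (⟨σ Polynomial.X, htE⟩ : E) ^ n) (by
    intro a b hab
    have h1 : σ (Polynomial.X ^ a) = σ (Polynomial.X ^ b) := by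
      rw [map_pow, map_pow]
      exact congrArg (Subtype.val : E → M) hab
    have h2 := congrArg Polynomial.natDegree (hM.σ_injective h1)
    rwa [Polynomial.natDegree_X_pow, Polynomial.natDegree_X_pow] at h2)
  obtain ⟨x, y, hxy⟩ := h
  obtain ⟨f1, f2⟩ := f
  obtain ⟨hf1, hf2⟩ := hf
  simp only at hf1 hf2
  let tE : E := ⟨σ Polynomial.X, htE⟩
  let sE : ℕ → E := fun i => ⟨s i, hs i⟩
  set N := bq f1 with hN
  set q := QP N tE sE f1 with hq
  have hqv : ∀ w : Fin N → E, qv (σ Polynomial.X) s (ext fun i => (w i : M)) f1 =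
      ((MvPolynomial.eval w q : E) : M) := by
    intro w
    have h1 := eval₂_QP E.subtype N tE sE f1 (fun i => (w i : M))
    have h2 : MvPolynomial.eval₂ E.subtype (fun i => (w i : M)) q = E.subtype (MvPolynomial.eval w q) :=
      LD90.eval₂_comp_eval E.subtype w q
    exact h1.symm.trans h2
  have hextE : ∀ {r : ℕ} (w : Fin r → E), ∀ i, ext (fun i => (w i : M)) i ∈ E := by
    intro r w i
    rw [ext]
    split_ifs with h
    · exact (w _).2
    · exact zero_mem _
  have hqx : MvPolynomial.eval₂ E.subtype (fun i : Fin N => x i) q = qv (σ Polynomial.X) s x f1 := by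
    rw [hq, eval₂_QP]
    apply qv_congr
    intro m hm i hi
    rw [ext, dif_pos (lt_bq hm hi)]
  have hd0 : ∀ i, (f2.get i).2 ≠ 0 := fun i h0 =>
    hf2 _ (List.get_mem f2 i) (h0 ▸ dvd_zero p)
  have hnf : (∀ c : E, ∃ x : Fin N → E, MvPolynomial.eval x q = c) ∨
      ∃ (m : ℕ) (w : Fin m → E) (c : E), (p = 2 → m = 0) ∧
        (∀ x : Fin N → M, ∃ z : Fin m → M,
          MvPolynomial.eval₂ E.subtype x q = ∑ i, (w i : M) * z i ^ 2 + c) ∧
        ∀ z : Fin m → E, ∃ x : Fin N → E, MvPolynomial.eval x q = ∑ i, w i * z i ^ 2 + c := by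
    by_cases h2 : p = 2
    · rcases OP90.lin_nf E.subtype q (deg_QP N tE sE f1 1 fun m hm => (hf1 m hm).2 h2) with h3 | h3
      · exact Or.inl h3
      · obtain ⟨c, hc1, hc2⟩ := h3
        refine Or.inr ⟨0, fun i => i.elim0, c, fun _ => rfl, fun x => ⟨fun i => i.elim0, ?_⟩,
          fun z => ⟨0, ?_⟩⟩
        · rw [hc1]
          simp
        · rw [hc2]
          simp
    · rcases hA E.subtype (OP90.two_ne hM h2 E) q
        (deg_QP N tE sE f1 2 fun m hm => (hf1 m hm).1) with h3 | h3
      · exact Or.inl h3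
      · obtain ⟨m, w, c, h4, h5⟩ := h3
        exact Or.inr ⟨m, w, c, fun h => absurd h h2, h4, h5⟩
  rcases hnf with hnf | hnf
  · obtain ⟨w, hw⟩ := hnf 0
    refine ⟨ext fun i => (w i : M), fun _ => 0, hextE w, fun _ => zero_mem _, ?_⟩
    show qv (σ Polynomial.X) s _ f1 + dv (σ Polynomial.X) s f2 _ = 0
    rw [hqv, hw, dv_eq, Finset.sum_eq_zero, ZeroMemClass.coe_zero, add_zero]
    intro i _
    rw [zero_pow (hd0 i), mul_zero]
  · obtain ⟨m, w, c, hm0, hM1, hE3⟩ := hnf
    obtain ⟨z, hz⟩ := hM1 (fun i : Fin N => x i)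
    have hevE : ∀ a : PL, ev (σ Polynomial.X) s a ∈ E := by
      intro a
      have h1 := ev_map' E.subtype tE sE a
      have h2 : ev (σ Polynomial.X) s a = (ev tE sE a : E) := h1
      rw [h2]
      exact (ev tE sE a).2
    have h0 : ∑ i, Fin.append (fun i => (w i : M)) (fun i => ev (σ Polynomial.X) s (f2.get i).1) i *
        Fin.append z (fun i : Fin f2.length => y i) i ^
          Fin.append (fun _ => 2) (fun i => (f2.get i).2) i + (c : M) = 0 := by
      rw [Fin.sum_univ_add]
      simp only [Fin.append_left, Fin.append_right]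
      have h1 : qv (σ Polynomial.X) s x f1 + dv (σ Polynomial.X) s f2 y = 0 := hxy
      rw [← hqx, hz, dv_eq] at h1
      linear_combination h1
    obtain ⟨z', hz'E, hz'⟩ := OP90.diag_up hM j hj
      (fun e he β β0 z hz => hCD hM j hj e he β β0 z hz) E hE1 hE2
      (Fin.append (fun _ => 2) (fun i => (f2.get i).2)) (by
        intro i
        refine Fin.addCases (fun i => ?_) (fun i => ?_) i
        · rw [Fin.append_left]
          intro h2
          have h3 := (Nat.prime_dvd_prime_iff_eq hp.out Nat.prime_two).1 h2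
          have h4 := hm0 h3
          subst h4
          exact i.elim0
        · rw [Fin.append_right]
          exact hf2 _ (List.get_mem f2 i))
      (Fin.append (fun i => (w i : M)) (fun i => ev (σ Polynomial.X) s (f2.get i).1)) (by
        intro i
        refine Fin.addCases (fun i => ?_) (fun i => ?_) i
        · rw [Fin.append_left]
          exact (w i).2
        · rw [Fin.append_right]
          exact hevE _) c c.2 _ h0
    obtain ⟨v, hv⟩ := hE3 (fun i => ⟨z' (Fin.castAdd _ i), hz'E _⟩)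
    refine ⟨ext fun i => (v i : M), ext fun i => z' (Fin.natAdd m i), hextE v, fun i => ?_, ?_⟩
    · rw [ext]
      split_ifs with h
      · exact hz'E _
      · exact zero_mem _
    · show qv (σ Polynomial.X) s _ f1 + dv (σ Polynomial.X) s f2 _ = 0
      rw [hqv, hv, dv_eq]
      rw [Fin.sum_univ_add] at hz'
      simp only [Fin.append_left, Fin.append_right] at hz'
      have h1 : (((∑ i, w i * (⟨z' (Fin.castAdd _ i), hz'E _⟩ : E) ^ 2 + c : E)) : M) =
          ∑ i, (w i : M) * z' (Fin.castAdd _ i) ^ 2 + c := by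
        rw [← Subfield.subtype_apply, map_add, map_sum]
        rfl
      have h2 : ∀ i : Fin f2.length, ext (fun i => z' (Fin.natAdd m i)) (i : ℕ) =
          z' (Fin.natAdd m i) := by
        intro i
        rw [ext, dif_pos i.2]
      rw [h1]
      simp only [h2]
      linear_combination hz'

/-- CB-4: a solvable equation is solvable by elements algebraic over the parameter -/
theorem up_r (hCD : OP90.CD p) (hA : OP90.QNF) (hM : Mdl p σ) (s : ℕ → M)
    (hs : ∀ i, OP90.RAlg σ (s 0) (s i)) (f : Eqn)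
    (hf : (∀ m ∈ f.1, m.2.length ≤ 2 ∧ (p = 2 → m.2.length ≤ 1)) ∧ ∀ m ∈ f.2, ¬ p ∣ m.2)
    (h : ∃ x y : ℕ → M, Eqn.val (σ Polynomial.X) s x y f = 0) :
    ∃ x y : ℕ → M, (∀ i, OP90.RAlg σ (s 0) (x i)) ∧ (∀ i, OP90.RAlg σ (s 0) (y i)) ∧
      Eqn.val (σ Polynomial.X) s x y f = 0 := by
  obtain ⟨j, hj, -⟩ := hM.exists_j
  by_cases h0 : BF80.Alg1 σ (s 0)
  · obtain ⟨x, y, hx, hy, h0'⟩ := up_of hM j hj hCD hA (algField σ)
      (fun a => hM.alg1_hom j hj a) (fun z n hn hz => OP90.root_mem σ hn hz) s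
      (fun i => (OP90.RAlg.iff_alg h0 _).1 (hs i)) f hf h
    exact ⟨x, y, fun i => (OP90.RAlg.iff_alg h0 _).2 (hx i),
      fun i => (OP90.RAlg.iff_alg h0 _).2 (hy i), h0'⟩
  · obtain ⟨x, y, hx, hy, h0'⟩ := up_of hM j hj hCD hA (algField (ev1 σ (s 0)))
      (fun a => alg1_lift (hM.alg1_hom j hj a)) (fun z n hn hz => OP90.root_mem _ hn hz) s
      (fun i => (OP90.RAlg.iff_trans h0 _).1 (hs i)) f hf h
    exact ⟨x, y, fun i => (OP90.RAlg.iff_trans h0 _).2 (hx i),
      fun i => (OP90.RAlg.iff_trans h0 _).2 (hy i), h0'⟩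

end up

end CB90
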