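import Pool.Agent.CB90.BaseMem
import Pool.Agent.CB90.Down
import Pool.Agent.CB90.Trunc
import Pool.Agent.CB90.Up

/-!
# Solvability in the models and in `k0`
-/

set_option maxSynthPendingDepth 10

namespace CB90

open FT80 BF80 LD90

section core

variable {p : ℕ} [Fact p.Prime] {M : Type} [Field M] {σ : P1 p →+* M}

/-- solvability in a model is solvability in `k0` -/
theorem psol_k0 (hCD : OP90.CD p) (hA : OP90.QNF) (hM : Mdl p σ) (a : List PL × List Eqn × PL)
    (ha : Adm p a) : PSol (σ Polynomial.X) a ↔ PSol (sig0 p Polynomial.X) a := by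
  obtain ⟨j, hj, -⟩ := hM.exists_j
  constructor
  · rintro ⟨s, h⟩
    obtain ⟨hB, hg, hF⟩ := trunc (σ Polynomial.X) a ha s h
    set s' : ℕ → M := fun i => if i ≤ a.1.length then s i else 0 with hs'
    have hs0 : s' 0 = s 0 := by
      rw [hs']
      exact if_pos (Nat.zero_le _)
    have hmem : ∀ i, OP90.RAlg σ (s' 0) (s' i) := by
      intro i
      by_cases hi : i ≤ a.1.length
      · have h1 : s' i = s i := if_pos hi
        rw [h1, hs0]
        by_cases h0 : BF80.Alg1 σ (s 0)
        · exact (OP90.RAlg.iff_alg h0 _).2 (base_mem σ (σ Polynomial.X) (CI.map_mem_algField σ _)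
            a.1 s h0 ha.1 h.1 i hi)
        · refine (OP90.RAlg.iff_trans h0 _).2 (base_mem (ev1 σ (s 0)) (σ Polynomial.X) ?_
            a.1 s (x_mem_acl (s 0)) ha.1 h.1 i hi)
          rw [← hj]
          exact alg1_lift (hM.alg1_hom j hj _)
      · have h1 : s' i = 0 := if_neg hi
        rw [h1]
        by_cases h0 : BF80.Alg1 σ (s' 0)
        · exact (OP90.RAlg.iff_alg h0 _).2 (zero_mem (algField σ))
        · exact (OP90.RAlg.iff_trans h0 _).2 (zero_mem (algField (ev1 σ (s' 0))))
    refine down hM s' hmem a hB hg fun f hf => up_r hCD hA hM s' hmem f ?_ (hF f hf)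
    obtain ⟨h3, h4⟩ := ha.2.1 f hf
    exact ⟨fun m hm => (h3 m hm).2, fun m hm => (h4 m hm).2⟩
  · intro h
    have := h.map j j.injective
    rwa [hj] at this

theorem psol_KK (hCD : OP90.CD p) (hA : OP90.QNF) (hM : Mdl p σ) (a : List PL × List Eqn × PL)
    (ha : Adm p a) : PSol (σ Polynomial.X) a ↔ PSol (tauK p Polynomial.X) a :=
  (psol_k0 hCD hA hM a ha).trans (psol_k0 hCD hA mdl_KK a ha).symm

end core

end CB90
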