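import Pool.Agent.CB90.Defs
import Pool.Agent.OP90.Dec

/-!
# The decision wrapper for equations over a base of dimension one

The problem is translated into a system in the sense of `LD90`: the base variable `s_i` is the
variable `4 * i`, the witness for the polynomial `B_i` is the variable `4 * i + 1`, the auxiliary
variables of the equation with `j` equations behind it are `4 * pair j i + 2` and
`4 * pair j i + 3`. The inequation is the product of `g` and the polynomials `B_i` at the
witnesses.
-/

set_option maxSynthPendingDepth 10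
set_option autoImplicit false

open Polynomial

namespace CB90

open FT80 BF80 LD90

namespace De

/-- renaming of variables -/
def ren (w : ℕ → ℕ) (c : PL) : PL := c.map fun m => (m.1, m.2.map w)

/-- the variable `s_i` -/
def vs (i : ℕ) : ℕ := 4 * i

/-- the variables `x_i` of the equation number `j` -/
def vx (j i : ℕ) : ℕ := 4 * Nat.pair j i + 2

/-- the variables `y_i` of the equation number `j` -/
def vy (j i : ℕ) : ℕ := 4 * Nat.pair j i + 3

/-- the variables of `B_i` at the witness -/
def vz (i j : ℕ) : ℕ := if j = i + 1 then 4 * i + 1 else 4 * j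

/-- the monomials of `c(s) * w` -/
def mul1 (w : List ℕ) (c : PL) : PL := c.map fun m => (m.1, m.2.map vs ++ w)

/-- products -/
def mulP (a b : PL) : PL := a.flatMap fun m => b.map fun n => (m.1 + n.1, m.2 ++ n.2)

/-- the polynomial part -/
def qL (j : ℕ) (l : List (PL × List ℕ)) : PL := l.flatMap fun m => mul1 (m.2.map (vx j)) m.1

/-- the diagonal part -/
def dL (j : ℕ) : List (PL × ℕ) → PL
  | [] => []
  | m :: l => mul1 (List.replicate m.2 (vy j l.length)) m.1 ++ dL j l

/-- an equation -/
def eL (j : ℕ) (f : Eqn) : PL := qL j f.1 ++ dL j f.2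

/-- the equations -/
def sL : List Eqn → List PL
  | [] => []
  | f :: fs => eL fs.length f :: sL fs

/-- the product of `g` and the polynomials of the base at the witnesses -/
def pB (B : List PL) (g : PL) (n : ℕ) : PL :=
  n.rec (mul1 [] g) fun i c => mulP c (ren (vz i) (B.getD i []))

/-- the translation -/
def tr (a : List PL × List Eqn × PL) : List PL × PL :=
  (a.1.map (mul1 []) ++ sL a.2.1, pB a.1 a.2.2 a.1.length)

section sem

variable {R : Type*} [CommRing R] (t : R)

theorem ev_nil (X : ℕ → R) : ev t X [] = 0 := by simp [ev]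

theorem ev_cons (X : ℕ → R) (m : ℕ × List ℕ) (f : PL) :
    ev t X (m :: f) = t ^ m.1 * (m.2.map X).prod + ev t X f := by
  simp [ev]

theorem ev_append (X : ℕ → R) (f g : PL) : ev t X (f ++ g) = ev t X f + ev t X g := by
  simp [ev]

theorem ev_ren (X : ℕ → R) (w : ℕ → ℕ) (c : PL) :
    ev t X (ren w c) = ev t (fun i => X (w i)) c := by
  induction c with
  | nil => simp [ev, ren]
  | cons m c ih =>
    have h1 : ren w (m :: c) = (m.1, m.2.map w) :: ren w c := by simp [ren]
    rw [h1, ev_cons, ev_cons, ih, List.map_map]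
    rfl

theorem ev_mul1 (X : ℕ → R) (w : List ℕ) (c : PL) :
    ev t X (mul1 w c) = ev t (fun i => X (vs i)) c * (w.map X).prod := by
  induction c with
  | nil => simp [ev, mul1]
  | cons m c ih =>
    have h1 : mul1 w (m :: c) = (m.1, m.2.map vs ++ w) :: mul1 w c := by simp [mul1]
    rw [h1, ev_cons, ev_cons, ih, List.map_append, List.prod_append, List.map_map]
    have h2 : (X ∘ vs) = fun i => X (vs i) := rfl
    rw [h2]
    ring

theorem ev_mulP (X : ℕ → R) (a b : PL) : ev t X (mulP a b) = ev t X a * ev t X b := by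
  induction a with
  | nil => simp [ev, mulP]
  | cons m a ih =>
    have h1 : mulP (m :: a) b = (b.map fun n => (m.1 + n.1, m.2 ++ n.2)) ++ mulP a b := by
      simp [mulP]
    have h2 : ev t X (b.map fun n => (m.1 + n.1, m.2 ++ n.2)) =
        t ^ m.1 * (m.2.map X).prod * ev t X b := by
      clear ih h1
      induction b with
      | nil => simp [ev]
      | cons n b ih =>
        rw [List.map_cons, ev_cons, ev_cons, ih, List.map_append, List.prod_append, pow_add]
        ring
    rw [h1, ev_append, ev_cons, h2, ih]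
    ring

theorem ev_qL (X : ℕ → R) (j : ℕ) (l : List (PL × List ℕ)) :
    ev t X (qL j l) = qv t (fun i => X (vs i)) (fun i => X (vx j i)) l := by
  induction l with
  | nil => simp [ev, qL, qv]
  | cons m l ih =>
    have h1 : qL j (m :: l) = mul1 (m.2.map (vx j)) m.1 ++ qL j l := by
      simp [qL]
    have h2 : qv t (fun i => X (vs i)) (fun i => X (vx j i)) (m :: l) =
        ev t (fun i => X (vs i)) m.1 * (m.2.map fun i => X (vx j i)).prod +
          qv t (fun i => X (vs i)) (fun i => X (vx j i)) l := by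
      simp [qv]
    rw [h1, h2, ev_append, ev_mul1, ih, List.map_map]
    rfl

/-- the diagonal part with reversed variables -/
def dr {R : Type*} [CommRing R] (t : R) (s : ℕ → R) : List (PL × ℕ) → (ℕ → R) → R
  | [], _ => 0
  | m :: l, y => ev t s m.1 * y l.length ^ m.2 + dr t s l y

theorem ev_dL (X : ℕ → R) (j : ℕ) (l : List (PL × ℕ)) :
    ev t X (dL j l) = dr t (fun i => X (vs i)) l (fun i => X (vy j i)) := by
  induction l with
  | nil => simp [ev, dL, dr]
  | cons m l ih =>
    rw [dL, ev_append, ev_mul1, ih, dr, List.map_replicate, List.prod_replicate]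

theorem dv_congr (s : ℕ → R) (l : List (PL × ℕ)) : ∀ y y' : ℕ → R,
    (∀ i < l.length, y i = y' i) → dv t s l y = dv t s l y' := by
  induction l with
  | nil => intro y y' _; rfl
  | cons m l ih =>
    intro y y' h
    obtain ⟨a, d⟩ := m
    rw [dv, dv, h 0 (by simp), ih (fun i => y (i + 1)) (fun i => y' (i + 1))
      (fun i hi => h (i + 1) (by simpa using hi))]

theorem dr_eq (s : ℕ → R) (l : List (PL × ℕ)) : ∀ y : ℕ → R,
    dr t s l y = dv t s l (fun i => y (l.length - 1 - i)) := by
  induction l with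
  | nil => intro y; rfl
  | cons m l ih =>
    intro y
    obtain ⟨a, d⟩ := m
    rw [dr, dv, ih]
    have h1 : ((a, d) :: l).length - 1 - 0 = l.length := by simp
    have h2 : (fun i => y (((a, d) :: l).length - 1 - (i + 1))) =
        fun i => y (l.length - 1 - i) := by
      funext i
      congr 1
      simp only [List.length_cons]
      omega
    rw [h1, h2]

theorem exists_dr (s : ℕ → R) (l : List (PL × ℕ)) (y : ℕ → R) :
    ∃ y' : ℕ → R, dr t s l y' = dv t s l y := by
  refine ⟨fun i => y (l.length - 1 - i), ?_⟩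
  rw [dr_eq]
  refine dv_congr t s l _ _ fun i hi => ?_
  congr 1
  omega

/-- an equation with reversed variables -/
def valr {R : Type*} [CommRing R] (t : R) (s x y : ℕ → R) (f : Eqn) : R :=
  qv t s x f.1 + dr t s f.2 y

theorem exists_val (s : ℕ → R) (f : Eqn) :
    (∃ x y : ℕ → R, Eqn.val t s x y f = 0) ↔ ∃ x y : ℕ → R, valr t s x y f = 0 := by
  constructor
  · rintro ⟨x, y, h⟩
    obtain ⟨y', hy'⟩ := exists_dr t s f.2 y
    refine ⟨x, y', ?_⟩
    rw [valr, hy']
    exact h
  · rintro ⟨x, y, h⟩
    rw [valr, dr_eq] at h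
    exact ⟨x, _, h⟩

theorem ev_eL (X : ℕ → R) (j : ℕ) (f : Eqn) :
    ev t X (eL j f) =
      valr t (fun i => X (vs i)) (fun i => X (vx j i)) (fun i => X (vy j i)) f := by
  rw [eL, ev_append, ev_qL, ev_dL, valr]

theorem sL_cons (X : ℕ → R) (f : Eqn) (fs : List Eqn) :
    (∀ g ∈ sL (f :: fs), ev t X g = 0) ↔
      valr t (fun i => X (vs i)) (fun i => X (vx fs.length i)) (fun i => X (vy fs.length i))
        f = 0 ∧ ∀ g ∈ sL fs, ev t X g = 0 := by
  rw [sL, List.forall_mem_cons, ev_eL]

theorem sL_congr (fs : List Eqn) (X X' : ℕ → R) (h0 : ∀ i, X (vs i) = X' (vs i))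
    (hx : ∀ j < fs.length, ∀ i, X (vx j i) = X' (vx j i))
    (hy : ∀ j < fs.length, ∀ i, X (vy j i) = X' (vy j i)) :
    (∀ g ∈ sL fs, ev t X g = 0) → ∀ g ∈ sL fs, ev t X' g = 0 := by
  induction fs with
  | nil => intro _ g hg; simp [sL] at hg
  | cons f fs ih =>
    rw [sL_cons, sL_cons]
    rintro ⟨h1, h2⟩
    have e0 : (fun i => X (vs i)) = fun i => X' (vs i) := funext h0
    have e1 : (fun i => X (vx fs.length i)) = fun i => X' (vx fs.length i) :=
      funext fun i => hx _ (by simp) i
    have e2 : (fun i => X (vy fs.length i)) = fun i => X' (vy fs.length i) :=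
      funext fun i => hy _ (by simp) i
    rw [e0, e1, e2] at h1
    refine ⟨h1, ih (fun j hj i => hx j ?_ i) (fun j hj i => hy j ?_ i) h2⟩
    · rw [List.length_cons]; omega
    · rw [List.length_cons]; omega

/-- the values of the translated equations do not depend on the variables `4 * i + 1`, and the
variables `4 * i` and `4 * i + 1` can be prescribed -/
theorem sL_sat (s z : ℕ → R) (fs : List Eqn) :
    (∃ X : ℕ → R, (∀ i, X (vs i) = s i) ∧ (∀ i, X (4 * i + 1) = z i) ∧
      ∀ g ∈ sL fs, ev t X g = 0) ↔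
      ∀ f ∈ fs, ∃ x y : ℕ → R, valr t s x y f = 0 := by
  constructor
  · rintro ⟨X, hs, -, h⟩
    have hs' : (fun i => X (vs i)) = s := funext hs
    induction fs with
    | nil => intro f hf; simp at hf
    | cons f fs ih =>
      rw [sL_cons, hs'] at h
      intro f' hf'
      rcases List.mem_cons.1 hf' with rfl | hf'
      · exact ⟨_, _, h.1⟩
      · exact ih h.2 f' hf'
  · intro h
    induction fs with
    | nil =>
      refine ⟨fun v => if v % 4 = 0 then s (v / 4) else z (v / 4), fun i => ?_, fun i => ?_,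
        fun g hg => by simp [sL] at hg⟩
      · have e1 : vs i % 4 = 0 := by simp only [vs]; omega
        have e2 : vs i / 4 = i := by simp only [vs]; omega
        simp only [e1, e2, if_true]
      · have e1 : ¬ (4 * i + 1) % 4 = 0 := by omega
        have e2 : (4 * i + 1) / 4 = i := by omega
        simp only [e1, e2, if_false]
    | cons f fs ih =>
      obtain ⟨X, h0, hz, h1⟩ := ih fun f' hf' => h f' (List.mem_cons_of_mem _ hf')
      obtain ⟨x, y, h2⟩ := h f List.mem_cons_self
      classical
      let X' : ℕ → R := fun v =>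
        if v % 4 = 2 ∧ (Nat.unpair (v / 4)).1 = fs.length then x (Nat.unpair (v / 4)).2 else
        if v % 4 = 3 ∧ (Nat.unpair (v / 4)).1 = fs.length then y (Nat.unpair (v / 4)).2 else X v
      have a1 : ∀ j i, vx j i / 4 = Nat.pair j i := by intro j i; simp only [vx]; omega
      have a2 : ∀ j i, vy j i / 4 = Nat.pair j i := by intro j i; simp only [vy]; omega
      have a5 : ∀ j i, vx j i % 4 = 2 := by intro j i; simp only [vx]; omega
      have a6 : ∀ j i, vy j i % 4 = 3 := by intro j i; simp only [vy]; omega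
      have a7 : ∀ i, vs i % 4 = 0 := by intro i; simp only [vs]; omega
      have a8 : ∀ i, (4 * i + 1) % 4 = 1 := by intro i; omega
      have b0 : ∀ i, X' (vs i) = X (vs i) := by
        intro i
        simp [X', a7]
      have bz : ∀ i, X' (4 * i + 1) = X (4 * i + 1) := by
        intro i
        simp [X', a8]
      have b1 : ∀ i, X' (vx fs.length i) = x i := by
        intro i
        simp [X', a1, a5, Nat.unpair_pair]
      have b2 : ∀ i, X' (vy fs.length i) = y i := by
        intro i
        simp [X', a2, a6, Nat.unpair_pair]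
      have b3 : ∀ j < fs.length, ∀ i, X (vx j i) = X' (vx j i) := by
        intro j hj i
        simp [X', a1, a5, Nat.unpair_pair, hj.ne]
      have b4 : ∀ j < fs.length, ∀ i, X (vy j i) = X' (vy j i) := by
        intro j hj i
        simp [X', a2, a6, Nat.unpair_pair, hj.ne]
      refine ⟨X', fun i => (b0 i).trans (h0 i), fun i => (bz i).trans (hz i), ?_⟩
      rw [sL_cons]
      refine ⟨?_, sL_congr t fs X X' (fun i => (b0 i).symm) b3 b4 h1⟩
      have e0 : (fun i => X' (vs i)) = s := funext fun i => (b0 i).trans (h0 i)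
      rw [e0, funext b1, funext b2]
      exact h2

theorem ev_vz (X : ℕ → R) (i : ℕ) (b : PL) :
    ev t X (ren (vz i) b) =
      ev t (Function.update (fun j => X (vs j)) (i + 1) (X (4 * i + 1))) b := by
  rw [ev_ren]
  congr 1
  funext j
  by_cases hj : j = i + 1
  · subst hj
    simp [vz]
  · rw [Function.update_of_ne hj]
    simp [vz, hj, vs]

theorem pB_succ (B : List PL) (g : PL) (n : ℕ) :
    pB B g (n + 1) = mulP (pB B g n) (ren (vz n) (B.getD n [])) := rfl

theorem ev_pB_ne [IsDomain R] (X : ℕ → R) (B : List PL) (g : PL) (n : ℕ) :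
    ev t X (pB B g n) ≠ 0 ↔ ev t (fun i => X (vs i)) g ≠ 0 ∧
      ∀ i < n, ev t (Function.update (fun j => X (vs j)) (i + 1) (X (4 * i + 1)))
        (B.getD i []) ≠ 0 := by
  induction n with
  | zero =>
    have h1 : pB B g 0 = mul1 [] g := rfl
    rw [h1, ev_mul1]
    simp
  | succ n ih =>
    rw [pB_succ, ev_mulP, ev_vz, mul_ne_zero_iff, ih, and_assoc]
    refine and_congr_right fun _ => ?_
    constructor
    · rintro ⟨h1, h2⟩ i hi
      rcases Nat.lt_succ_iff_lt_or_eq.1 hi with hi | rfl
      · exact h1 i hi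
      · exact h2
    · intro h
      exact ⟨fun i hi => h i (by omega), h n (by omega)⟩

theorem tr_iff [IsDomain R] (a : List PL × List Eqn × PL) : Sol t (tr a) ↔ PSol t a := by
  have hB : ∀ X : ℕ → R, ∀ b : PL, ev t X (mul1 [] b) = ev t (fun i => X (vs i)) b := by
    intro X b
    rw [ev_mul1]
    simp
  have hget : ∀ i b, a.1[i]? = some b ↔ i < a.1.length ∧ a.1.getD i [] = b := by
    intro i b
    rw [List.getD_eq_getElem?_getD]
    constructor
    · intro h
      refine ⟨?_, by rw [h]; rfl⟩
      by_contra hi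
      rw [List.getElem?_eq_none (by omega)] at h
      exact absurd h (by simp)
    · rintro ⟨h1, h2⟩
      rw [List.getElem?_eq_getElem h1] at h2 ⊢
      simpa using h2
  constructor
  · rintro ⟨X, h1, h2⟩
    have h2' := (ev_pB_ne t X a.1 a.2.2 a.1.length).1 h2
    refine ⟨fun i => X (vs i), ?_, h2'.1, ?_⟩
    · intro i b hb
      refine ⟨?_, X (4 * i + 1), ?_⟩
      · rw [← hB]
        exact h1 _ (List.mem_append_left _ (List.mem_map_of_mem (List.mem_of_getElem? hb)))
      · obtain ⟨h3, h4⟩ := (hget i b).1 hb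
        have h5 := h2'.2 i h3
        rw [h4] at h5
        exact h5
    · intro f hf
      rw [exists_val]
      exact (sL_sat t (fun i => X (vs i)) (fun i => X (4 * i + 1)) a.2.1).1
        ⟨X, fun _ => rfl, fun _ => rfl, fun g hg => h1 g (List.mem_append_right _ hg)⟩ f hf
  · rintro ⟨s, hb, hg, h2⟩
    have hz : ∀ i, ∃ z : R, i < a.1.length →
        ev t (Function.update s (i + 1) z) (a.1.getD i []) ≠ 0 := by
      intro i
      by_cases hi : i < a.1.length
      · obtain ⟨z, hz⟩ := (hb i (a.1.getD i []) ((hget i _).2 ⟨hi, rfl⟩)).2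
        exact ⟨z, fun _ => hz⟩
      · exact ⟨0, fun h => absurd h hi⟩
    choose z hz using hz
    obtain ⟨X, h3, h3', h4⟩ := (sL_sat t s z a.2.1).2 fun f hf => (exists_val t s f).1 (h2 f hf)
    have e0 : (fun i => X (vs i)) = s := funext h3
    refine ⟨X, ?_, ?_⟩
    · intro f hf
      rcases List.mem_append.1 hf with hf | hf
      · obtain ⟨b, hb1, rfl⟩ := List.mem_map.1 hf
        obtain ⟨i, hi⟩ := List.getElem?_of_mem hb1
        rw [hB, e0]
        exact (hb i b hi).1
      · exact h4 f hf
    · show ev t X (pB a.1 a.2.2 a.1.length) ≠ 0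
      rw [ev_pB_ne, e0]
      refine ⟨hg, fun i hi => ?_⟩
      rw [h3' i]
      exact hz i hi

end sem

section prim

open Primrec

theorem primrec_vs : Primrec vs := Primrec.nat_mul.comp (Primrec.const 4) Primrec.id

theorem primrec_vx : Primrec₂ vx :=
  Primrec.nat_add.comp (Primrec.nat_mul.comp (Primrec.const 4)
    (Primrec₂.natPair.comp Primrec.fst Primrec.snd)) (Primrec.const 2)

theorem primrec_vy : Primrec₂ vy :=
  Primrec.nat_add.comp (Primrec.nat_mul.comp (Primrec.const 4)
    (Primrec₂.natPair.comp Primrec.fst Primrec.snd)) (Primrec.const 3)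

theorem primrec_vz : Primrec₂ vz := by
  have h1 : PrimrecPred fun x : ℕ × ℕ => x.2 = x.1 + 1 :=
    Primrec.eq.comp Primrec.snd (Primrec.succ.comp Primrec.fst)
  have h2 : Primrec fun x : ℕ × ℕ => 4 * x.1 + 1 :=
    Primrec.nat_add.comp (Primrec.nat_mul.comp (Primrec.const 4) Primrec.fst) (Primrec.const 1)
  have h3 : Primrec fun x : ℕ × ℕ => 4 * x.2 :=
    Primrec.nat_mul.comp (Primrec.const 4) Primrec.snd
  exact Primrec.ite h1 h2 h3

theorem primrec_mul1 : Primrec₂ mul1 := by
  have h1 : Primrec₂ (fun (x : List ℕ × PL) (m : ℕ × List ℕ) => (m.1, m.2.map vs ++ x.1)) := by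
    have hm1 : Primrec (fun y : (List ℕ × PL) × (ℕ × List ℕ) => y.2.1) :=
      Primrec.fst.comp Primrec.snd
    have hm2 : Primrec (fun y : (List ℕ × PL) × (ℕ × List ℕ) => y.2.2) :=
      Primrec.snd.comp Primrec.snd
    have hw : Primrec (fun y : (List ℕ × PL) × (ℕ × List ℕ) => y.1.1) :=
      Primrec.fst.comp Primrec.fst
    exact Primrec.pair hm1 (Primrec.list_append.comp
      (Primrec.list_map hm2 (primrec_vs.comp Primrec.snd).to₂) hw)
  exact Primrec.list_map (f := fun x : List ℕ × PL => x.2) Primrec.snd h1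

theorem primrec_mulP : Primrec₂ mulP := by
  have h1 : Primrec₂ (fun (x : PL × PL) (m : ℕ × List ℕ) =>
      x.2.map fun n => (m.1 + n.1, m.2 ++ n.2)) := by
    have h2 : Primrec₂ (fun (y : (PL × PL) × (ℕ × List ℕ)) (n : ℕ × List ℕ) =>
        (y.2.1 + n.1, y.2.2 ++ n.2)) := by
      have c1 : Primrec (fun z : ((PL × PL) × (ℕ × List ℕ)) × (ℕ × List ℕ) => z.1.2.1) :=
        Primrec.fst.comp (Primrec.snd.comp Primrec.fst)
      have c2 : Primrec (fun z : ((PL × PL) × (ℕ × List ℕ)) × (ℕ × List ℕ) => z.1.2.2) :=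
        Primrec.snd.comp (Primrec.snd.comp Primrec.fst)
      have c3 : Primrec (fun z : ((PL × PL) × (ℕ × List ℕ)) × (ℕ × List ℕ) => z.2.1) :=
        Primrec.fst.comp Primrec.snd
      have c4 : Primrec (fun z : ((PL × PL) × (ℕ × List ℕ)) × (ℕ × List ℕ) => z.2.2) :=
        Primrec.snd.comp Primrec.snd
      exact Primrec.pair (Primrec.nat_add.comp c1 c3) (Primrec.list_append.comp c2 c4)
    exact Primrec.list_map (f := fun y : (PL × PL) × (ℕ × List ℕ) => y.1.2)
      (Primrec.snd.comp Primrec.fst) h2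
  exact Primrec.list_flatMap (f := fun x : PL × PL => x.1) Primrec.fst h1

theorem primrec_qL : Primrec₂ qL := by
  have h1 : Primrec₂ (fun (x : ℕ × List (PL × List ℕ)) (m : PL × List ℕ) =>
      mul1 (m.2.map (vx x.1)) m.1) := by
    have hj : Primrec (fun y : ((ℕ × List (PL × List ℕ)) × (PL × List ℕ)) × ℕ => y.1.1.1) :=
      Primrec.fst.comp (Primrec.fst.comp Primrec.fst)
    have hv : Primrec₂ (fun (y : (ℕ × List (PL × List ℕ)) × (PL × List ℕ)) (i : ℕ) =>
        vx y.1.1 i) := primrec_vx.comp hj Primrec.snd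
    have hw : Primrec (fun y : (ℕ × List (PL × List ℕ)) × (PL × List ℕ) =>
        y.2.2.map (vx y.1.1)) := Primrec.list_map (Primrec.snd.comp Primrec.snd) hv
    exact primrec_mul1.comp hw (Primrec.fst.comp Primrec.snd)
  exact Primrec.list_flatMap (f := fun x : ℕ × List (PL × List ℕ) => x.2) Primrec.snd h1

theorem primrec_dL : Primrec₂ dL := by
  have hj : Primrec (fun y : (ℕ × List (PL × ℕ)) × ((PL × ℕ) × List (PL × ℕ) × PL) => y.1.1) :=
    Primrec.fst.comp Primrec.fst
  have hm : Primrec (fun y : (ℕ × List (PL × ℕ)) × ((PL × ℕ) × List (PL × ℕ) × PL) => y.2.1) :=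
    Primrec.fst.comp Primrec.snd
  have hl : Primrec (fun y : (ℕ × List (PL × ℕ)) × ((PL × ℕ) × List (PL × ℕ) × PL) =>
      y.2.2.1.length) :=
    Primrec.list_length.comp (Primrec.fst.comp (Primrec.snd.comp Primrec.snd))
  have hi : Primrec (fun y : (ℕ × List (PL × ℕ)) × ((PL × ℕ) × List (PL × ℕ) × PL) => y.2.2.2) :=
    Primrec.snd.comp (Primrec.snd.comp Primrec.snd)
  have h : Primrec₂ (fun (x : ℕ × List (PL × ℕ)) (y : (PL × ℕ) × List (PL × ℕ) × PL) =>
      mul1 (List.replicate y.1.2 (vy x.1 y.2.1.length)) y.1.1 ++ y.2.2) :=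
    Primrec.list_append.comp (primrec_mul1.comp (OP90.De.primrec_replicate.comp
      (Primrec.snd.comp hm) (primrec_vy.comp hj hl)) (Primrec.fst.comp hm)) hi
  have h2 := Primrec.list_rec (f := fun x : ℕ × List (PL × ℕ) => x.2)
    (g := fun _ => ([] : PL)) Primrec.snd (Primrec.const _) h
  refine h2.of_eq fun x => ?_
  obtain ⟨j, l⟩ := x
  show _ = dL j l
  induction l with
  | nil => rfl
  | cons v l ih =>
    simp only [dL, ← ih]

theorem primrec_eL : Primrec₂ eL :=
  Primrec.list_append.comp (primrec_qL.comp Primrec.fst (Primrec.fst.comp Primrec.snd))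
    (primrec_dL.comp Primrec.fst (Primrec.snd.comp Primrec.snd))

theorem primrec_sL : Primrec sL := by
  have h : Primrec₂ (fun (_ : List Eqn) (y : Eqn × List Eqn × List PL) =>
      eL y.2.1.length y.1 :: y.2.2) := by
    have hl : Primrec (fun y : List Eqn × (Eqn × List Eqn × List PL) => y.2.2.1.length) :=
      Primrec.list_length.comp (Primrec.fst.comp (Primrec.snd.comp Primrec.snd))
    have hf : Primrec (fun y : List Eqn × (Eqn × List Eqn × List PL) => y.2.1) :=
      Primrec.fst.comp Primrec.snd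
    exact Primrec.list_cons.comp (primrec_eL.comp hl hf)
      (Primrec.snd.comp (Primrec.snd.comp Primrec.snd))
  have h2 := Primrec.list_rec (f := fun l : List Eqn => l) (g := fun _ => ([] : List PL))
    Primrec.id (Primrec.const _) h
  refine h2.of_eq fun l => ?_
  induction l with
  | nil => rfl
  | cons f l ih =>
    simp only [sL, ← ih]

theorem primrec_ren : Primrec₂ (fun (i : ℕ) (c : PL) => ren (vz i) c) := by
  have h1 : Primrec₂ (fun (x : ℕ × PL) (m : ℕ × List ℕ) => (m.1, m.2.map (vz x.1))) := by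
    have hm1 : Primrec (fun y : (ℕ × PL) × (ℕ × List ℕ) => y.2.1) :=
      Primrec.fst.comp Primrec.snd
    have hm2 : Primrec (fun y : (ℕ × PL) × (ℕ × List ℕ) => y.2.2) :=
      Primrec.snd.comp Primrec.snd
    have hv : Primrec₂ (fun (y : (ℕ × PL) × (ℕ × List ℕ)) (j : ℕ) => vz y.1.1 j) :=
      primrec_vz.comp (Primrec.fst.comp (Primrec.fst.comp Primrec.fst)) Primrec.snd
    exact Primrec.pair hm1 (Primrec.list_map hm2 hv)
  exact Primrec.list_map (f := fun x : ℕ × PL => x.2) Primrec.snd h1

theorem primrec_pB : Primrec fun a : List PL × List Eqn × PL => pB a.1 a.2.2 a.1.length := by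
  have h1 : Primrec₂ (fun (a : List PL × List Eqn × PL) (y : ℕ × PL) =>
      mulP y.2 (ren (vz y.1) (a.1.getD y.1 []))) := by
    have c1 : Primrec (fun z : (List PL × List Eqn × PL) × (ℕ × PL) => z.2.1) :=
      Primrec.fst.comp Primrec.snd
    have c2 : Primrec (fun z : (List PL × List Eqn × PL) × (ℕ × PL) => z.2.2) :=
      Primrec.snd.comp Primrec.snd
    have c3 : Primrec (fun z : (List PL × List Eqn × PL) × (ℕ × PL) => z.1.1) :=
      Primrec.fst.comp Primrec.fst
    exact primrec_mulP.comp c2 (primrec_ren.comp c1 ((Primrec.list_getD ([] : PL)).comp c3 c1))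
  exact Primrec.nat_rec' (f := fun a : List PL × List Eqn × PL => a.1.length)
    (g := fun a => mul1 [] a.2.2) (Primrec.list_length.comp Primrec.fst)
    (primrec_mul1.comp (Primrec.const []) (Primrec.snd.comp Primrec.snd)) h1

theorem primrec_tr : Primrec tr := by
  have h1 : Primrec fun a : List PL × List Eqn × PL => a.1.map (mul1 []) :=
    Primrec.list_map Primrec.fst (primrec_mul1.comp (Primrec.const []) Primrec.snd).to₂
  exact Primrec.pair (Primrec.list_append.comp h1
    (primrec_sL.comp (Primrec.fst.comp Primrec.snd))) primrec_pB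

theorem primrec_vars : PrimrecRel fun (c : PL) (n : ℕ) => Vars n c := by
  have h1 : PrimrecRel fun (l : List ℕ) (n : ℕ) => ∀ i ∈ l, i ≤ n :=
    PrimrecRel.forall_mem_list Primrec.nat_le
  have h2 : PrimrecRel fun (m : ℕ × List ℕ) (n : ℕ) => ∀ i ∈ m.2, i ≤ n :=
    h1.comp (Primrec.snd.comp Primrec.fst) Primrec.snd
  exact PrimrecRel.forall_mem_list h2

theorem primrec_adm (p : ℕ) : PrimrecPred (Adm p) := by
  have h1 : PrimrecRel fun (m : PL × List ℕ) (n : ℕ) =>
      Vars n m.1 ∧ m.2.length ≤ 2 ∧ (p = 2 → m.2.length ≤ 1) := by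
    have e0 : PrimrecPred fun x : (PL × List ℕ) × ℕ => Vars x.2 x.1.1 :=
      primrec_vars.comp (Primrec.fst.comp Primrec.fst) Primrec.snd
    have e1 : PrimrecPred fun x : (PL × List ℕ) × ℕ => x.1.2.length ≤ 2 :=
      Primrec.nat_le.comp (Primrec.list_length.comp (Primrec.snd.comp Primrec.fst))
        (Primrec.const 2)
    have e2 : PrimrecPred fun x : (PL × List ℕ) × ℕ => x.1.2.length ≤ 1 :=
      Primrec.nat_le.comp (Primrec.list_length.comp (Primrec.snd.comp Primrec.fst))
        (Primrec.const 1)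
    by_cases hp : p = 2
    · exact (e0.and (e1.and e2)).of_eq fun m => by simp [hp]
    · exact (e0.and e1).of_eq fun m => by simp [hp]
  have h2 : PrimrecRel fun (m : PL × ℕ) (n : ℕ) => Vars n m.1 ∧ ¬ p ∣ m.2 := by
    have e0 : PrimrecPred fun x : (PL × ℕ) × ℕ => Vars x.2 x.1.1 :=
      primrec_vars.comp (Primrec.fst.comp Primrec.fst) Primrec.snd
    have e1 : PrimrecPred fun x : (PL × ℕ) × ℕ => x.1.2 % p = 0 :=
      Primrec.eq.comp (Primrec.nat_mod.comp (Primrec.snd.comp Primrec.fst) (Primrec.const p))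
        (Primrec.const 0)
    refine (e0.and e1.not).of_eq fun m => ?_
    show _ ↔ Vars m.2 m.1.1 ∧ ¬ p ∣ m.1.2
    rw [Nat.dvd_iff_mod_eq_zero]
  have h3 : PrimrecRel fun (f : Eqn) (n : ℕ) =>
      (∀ m ∈ f.1, Vars n m.1 ∧ m.2.length ≤ 2 ∧ (p = 2 → m.2.length ≤ 1)) ∧
        ∀ m ∈ f.2, Vars n m.1 ∧ ¬ p ∣ m.2 :=
    ((PrimrecRel.forall_mem_list h1).comp (Primrec.fst.comp Primrec.fst) Primrec.snd).and
      ((PrimrecRel.forall_mem_list h2).comp (Primrec.snd.comp Primrec.fst) Primrec.snd)
  have h4 : PrimrecPred fun a : List PL × List Eqn × PL => ∀ f ∈ a.2.1,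
      (∀ m ∈ f.1, Vars a.1.length m.1 ∧ m.2.length ≤ 2 ∧ (p = 2 → m.2.length ≤ 1)) ∧
        ∀ m ∈ f.2, Vars a.1.length m.1 ∧ ¬ p ∣ m.2 :=
    (PrimrecRel.forall_mem_list h3).comp (Primrec.fst.comp Primrec.snd)
      (Primrec.list_length.comp Primrec.fst)
  have h5 : PrimrecPred fun a : List PL × List Eqn × PL => Vars a.1.length a.2.2 :=
    primrec_vars.comp (Primrec.snd.comp Primrec.snd) (Primrec.list_length.comp Primrec.fst)
  have h6 : PrimrecRel fun (i : ℕ) (B : List PL) => Vars (i + 1) (B.getD i []) := by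
    have c1 : Primrec fun x : ℕ × List PL => x.2.getD x.1 [] :=
      (Primrec.list_getD ([] : PL)).comp Primrec.snd Primrec.fst
    exact primrec_vars.comp c1 (Primrec.succ.comp Primrec.fst)
  have h7 : PrimrecPred fun a : List PL × List Eqn × PL =>
      ∀ i ∈ List.range a.1.length, Vars (i + 1) (a.1.getD i []) :=
    (PrimrecRel.forall_mem_list h6).comp
      (Primrec.list_range.comp (Primrec.list_length.comp Primrec.fst)) Primrec.fst
  refine (h7.and (h4.and h5)).of_eq fun a => ?_
  refine and_congr_left fun _ => ?_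
  constructor
  · intro h i b hb
    have hi : i < a.1.length := by
      by_contra hi
      rw [List.getElem?_eq_none (by omega)] at hb
      exact absurd hb (by simp)
    have h8 := h i (List.mem_range.2 hi)
    rw [List.getD_eq_getElem?_getD, hb] at h8
    exact h8
  · intro h i hi
    have hi' := List.mem_range.1 hi
    refine h i _ ?_
    rw [List.getD_eq_getElem?_getD, List.getElem?_eq_getElem hi']
    rfl

end prim

end De

open De in
/-- CB-6 (Dec.lean): the decision wrapper -/
theorem decide_psol (p : ℕ) [Fact p.Prime]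
    (h : ∀ (M : Type) [Field M] (σ : P1 p →+* M), Mdl p σ → ∀ a : List PL × List Eqn × PL,
      Adm p a → (PSol (σ Polynomial.X) a ↔ PSol (tauK p Polynomial.X) a)) :
    ∃ D : List PL × List Eqn × PL → Bool, Computable D ∧ ∀ a : List PL × List Eqn × PL,
      Adm p a → (D a = true ↔ PSol (HahnSeries.single 1 1 : LaurentSeries (ZMod p)) a) := by
  obtain ⟨D, hD, hDe⟩ := OP90.De.decide_gen p tr primrec_tr (Adm p)
    (primrec_adm p) (fun M _ σ hM a ha => by
      rw [tr_iff, tr_iff]
      exact h M σ hM a ha)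
  refine ⟨D, hD, fun a ha => ?_⟩
  rw [hDe a ha, tr_iff]

end CB90
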