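import Pool.Agent.LD90.Defs

/-!
# Equations over a base of dimension one: definitions

The base variables are `s_0, s_1, …`; coefficients are polynomials over `F_p[t]` in them, given as
lists of monomials (`LD90.PL`, with values `LD90.ev`). An equation has a polynomial part in
auxiliary variables `x_i` and a diagonal part `a_0(s) y_0 ^ d_0 + … + a_r(s) y_r ^ d_r` in further
auxiliary variables.
-/

namespace CB90

open LD90

/-- equations: the pair `(c, l)` in the first list stands for `c(s) * ∏_{i ∈ l} x_i`, the `i`-th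
pair `(a, d)` in the second list for `a(s) * y_i ^ d` -/
abbrev Eqn := List (PL × List ℕ) × List (PL × ℕ)

/-- the polynomial part -/
def qv {R : Type*} [CommRing R] (t : R) (s x : ℕ → R) (l : List (PL × List ℕ)) : R :=
  (l.map fun m => ev t s m.1 * (m.2.map x).prod).sum

/-- the diagonal part -/
def dv {R : Type*} [CommRing R] (t : R) (s : ℕ → R) : List (PL × ℕ) → (ℕ → R) → R
  | [], _ => 0
  | (a, d) :: l, y => ev t s a * y 0 ^ d + dv t s l fun i => y (i + 1)

/-- the left hand side of the equation -/
def Eqn.val {R : Type*} [CommRing R] (t : R) (s x y : ℕ → R) (f : Eqn) : R :=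
  qv t s x f.1 + dv t s f.2 y

/-- the base: for every `i`, the polynomial `B_i` vanishes at `s`, but not identically in
`s_{i+1}` -/
def Base {R : Type*} [CommRing R] (t : R) (B : List PL) (s : ℕ → R) : Prop :=
  ∀ i b, B[i]? = some b → ev t s b = 0 ∧ ∃ z, ev t (Function.update s (i + 1) z) b ≠ 0

/-- the variables of the polynomial are among `s_0, …, s_n` -/
def Vars (n : ℕ) (c : PL) : Prop := ∀ m ∈ c, ∀ i ∈ m.2, i ≤ n

/-- admissible inputs `(B, F, g)`: `B_i` is a polynomial in `s_0, …, s_{i+1}`; the coefficients of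
the equations in `F` and `g` are polynomials in `s_0, …, s_n` where `n` is the length of `B`; the
polynomial parts have degree at most `2` in the `x_i` (at most `1` if `p = 2`), the exponents of the
diagonal parts are prime to `p` -/
def Adm (p : ℕ) (a : List PL × List Eqn × PL) : Prop :=
  (∀ i b, a.1[i]? = some b → Vars (i + 1) b) ∧
    (∀ f ∈ a.2.1,
      (∀ m ∈ f.1, Vars a.1.length m.1 ∧ m.2.length ≤ 2 ∧ (p = 2 → m.2.length ≤ 1)) ∧
        ∀ m ∈ f.2, Vars a.1.length m.1 ∧ ¬ p ∣ m.2) ∧
      Vars a.1.length a.2.2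

/-- there is a point `s` of the base with `g(s) ≠ 0` over which every equation of the list is
solvable -/
def PSol {R : Type*} [CommRing R] (t : R) (a : List PL × List Eqn × PL) : Prop :=
  ∃ s : ℕ → R, Base t a.1 s ∧ ev t s a.2.2 ≠ 0 ∧
    ∀ f ∈ a.2.1, ∃ x y : ℕ → R, Eqn.val t s x y f = 0

end CB90
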